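import Mathlib

/-!
# Signed Johnson and Kneser graphs with `k = 2`, `t = -1`

For `s = 2 ^ j`, `j ≥ 10`, and `n = C(2s, s)` we show
`χ(J_±(n,2,-1)) ≤ 2 s + 1 < χ(K_±(n,2,-1))`.
-/

namespace Pool.Agent.Results.MP_6c9e22_co.MinusOne

open Finset

/-- The vertex set `V_{n,k}`: vectors with entries in `{-1,0,1}` and exactly `k` nonzero
entries. -/
def Vec (n k : ℕ) : Type :=
  {v : Fin n → ℤ // (∀ i, v i = -1 ∨ v i = 0 ∨ v i = 1) ∧
    (univ.filter (fun i => v i ≠ 0)).card = k}

/-- The standard scalar product. -/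
def ip {n k : ℕ} (u v : Vec n k) : ℤ := ∑ i, u.1 i * v.1 i

lemma ip_comm {n k : ℕ} (u v : Vec n k) : ip u v = ip v u := by
  unfold ip
  exact sum_congr rfl (fun i _ => mul_comm _ _)

/-- The graph `J_±(n,k,t)`. -/
def J (n k : ℕ) (t : ℤ) : SimpleGraph (Vec n k) where
  Adj u v := u ≠ v ∧ ip u v = t
  symm := by
    constructor
    rintro u v ⟨h1, h2⟩
    exact ⟨h1.symm, (ip_comm v u).trans h2⟩
  loopless := ⟨fun u h => h.1 rfl⟩

/-- The graph `K_±(n,k,t)`. -/
def K (n k : ℕ) (t : ℤ) : SimpleGraph (Vec n k) where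
  Adj u v := u ≠ v ∧ ip u v ≤ t
  symm := by
    constructor
    rintro u v ⟨h1, h2⟩
    exact ⟨h1.symm, (ip_comm v u).le.trans h2⟩
  loopless := ⟨fun u h => h.1 rfl⟩

/-! ## The counting part -/

section Counting

variable {ι : Type} [Fintype ι] [DecidableEq ι] {m : ℕ}

lemma exempt_card (E : ι → ι → Prop) [∀ i j, Decidable (E i j)]
    (hout : ∀ i, (univ.filter (fun j => E i j)).card ≤ m) (T : Finset ι)
    (hT : ∀ i ∈ T, ∀ j ∈ T, i ≠ j → E i j ∨ E j i) : T.card ≤ 2 * m + 1 := by
  classical
  have h1 : T.offDiag ⊆ (T.sigma (fun i => univ.filter (fun j => E i j))).image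
      (fun p => (p.1, p.2)) ∪
      (T.sigma (fun i => univ.filter (fun j => E i j))).image (fun p => (p.2, p.1)) := by
    intro p hp
    rw [mem_offDiag] at hp
    rw [mem_union, mem_image, mem_image]
    rcases hT p.1 hp.1 p.2 hp.2.1 hp.2.2 with h | h
    · left
      exact ⟨⟨p.1, p.2⟩, by simp [hp.1, h], rfl⟩
    · right
      exact ⟨⟨p.2, p.1⟩, by simp [hp.2.1, h], rfl⟩
  have h2 : (T.sigma (fun i => univ.filter (fun j => E i j))).card ≤ T.card * m := by
    rw [card_sigma]
    calc ∑ i ∈ T, (univ.filter (fun j => E i j)).card ≤ ∑ i ∈ T, m :=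
          sum_le_sum (fun i _ => hout i)
      _ = T.card * m := by rw [sum_const, smul_eq_mul]
  have h3 := (card_le_card h1).trans (card_union_le _ _)
  have h4 := h3.trans (add_le_add card_image_le card_image_le)
  rw [offDiag_card] at h4
  have h5 : T.card * T.card ≤ T.card * (2 * m + 1) := by
    have : T.card * T.card - T.card ≤ T.card * m + T.card * m := by
      calc _ ≤ _ := h4
        _ ≤ _ := add_le_add h2 h2
    have h6 : T.card * T.card ≤ T.card * m + T.card * m + T.card := by omega
    calc T.card * T.card ≤ _ := h6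
      _ = _ := by ring
  rcases Nat.eq_zero_or_pos T.card with h | h
  · omega
  · exact Nat.le_of_mul_le_mul_left h5 h

/-- The counting lemma. -/
lemma counting (P Q M : ι → Finset (Fin m)) (E : ι → ι → Prop)
    [∀ i j, Decidable (E i j)]
    (hPQ : ∀ i, Disjoint (P i) (Q i)) (hPM : ∀ i, Disjoint (P i) (M i))
    (hQM : ∀ i, Disjoint (Q i) (M i))
    (hout : ∀ i, (univ.filter (fun j => E i j)).card ≤ m)
    (hfour : ∀ i j, i ≠ j → ¬ E i j → ¬ E j i →
      (P i ∩ P j).Nonempty ∧ (P i ∩ Q j).Nonempty ∧ (Q i ∩ P j).Nonempty ∧ (Q i ∩ Q j).Nonempty)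
    (hsub : ∀ i j, E i j → P j ⊆ M i ∨ Q j ⊆ M i) (ρ : ℕ) (hρ : 1 ≤ ρ) (hρm : ρ ≤ m) :
    2 * Fintype.card ι ≤ m.choose (m / 2) +
      2 * ((2 * m + 1) * (2 * (univ.filter (fun S : Finset (Fin m) => S.card < ρ)).card
        + 2 ^ (m - ρ))) := by
  classical
  set B := (univ.filter (fun S : Finset (Fin m) => S.card < ρ)).card with hB
  let HP := univ.filter (fun i => (P i).card < ρ)
  let HQ := univ.filter (fun i => (Q i).card < ρ)
  let HM := univ.filter (fun i => ρ ≤ (M i).card)
  let N := univ.filter (fun i => ¬ (P i).card < ρ ∧ ¬ (Q i).card < ρ ∧ ¬ ρ ≤ (M i).card)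
  -- HP
  have hHP : HP.card ≤ (2 * m + 1) * B := by
    have h1 : HP.card ≤ (2 * m + 1) * (HP.image P).card := by
      apply card_le_mul_card_image
      intro S hS
      apply exempt_card E hout
      intro i hi j hj hij
      by_contra hcon
      push Not at hcon
      obtain ⟨-, h, -⟩ := hfour i j hij hcon.1 hcon.2
      rw [mem_filter] at hi hj
      rw [hi.2.trans hj.2.symm] at h
      exact h.ne_empty (disjoint_iff_inter_eq_empty.1 (hPQ j))
    refine h1.trans (Nat.mul_le_mul_left _ (card_le_card ?_))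
    intro S hS
    rw [mem_image] at hS
    obtain ⟨i, hi, rfl⟩ := hS
    rw [mem_filter] at hi ⊢
    exact ⟨mem_univ _, hi.2⟩
  have hHQ : HQ.card ≤ (2 * m + 1) * B := by
    have h1 : HQ.card ≤ (2 * m + 1) * (HQ.image Q).card := by
      apply card_le_mul_card_image
      intro S hS
      apply exempt_card E hout
      intro i hi j hj hij
      by_contra hcon
      push Not at hcon
      obtain ⟨-, h, -⟩ := hfour i j hij hcon.1 hcon.2
      rw [mem_filter] at hi hj
      rw [← hi.2.trans hj.2.symm] at h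
      exact h.ne_empty (disjoint_iff_inter_eq_empty.1 (hPQ i))
    refine h1.trans (Nat.mul_le_mul_left _ (card_le_card ?_))
    intro S hS
    rw [mem_image] at hS
    obtain ⟨i, hi, rfl⟩ := hS
    rw [mem_filter] at hi ⊢
    exact ⟨mem_univ _, hi.2⟩
  have hHM : HM.card ≤ (2 * m + 1) * 2 ^ (m - ρ) := by
    have h1 : HM.card * 2 ^ ρ ≤ (univ : Finset (Finset (Fin m))).card * (2 * m + 1) := by
      apply card_mul_le_card_mul (fun i (A : Finset (Fin m)) => P i ⊆ A ∧ Disjoint A (Q i))
      · intro i hi
        rw [mem_filter] at hi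
        calc 2 ^ ρ ≤ 2 ^ (M i).card := Nat.pow_le_pow_right (by norm_num) hi.2
          _ = (M i).powerset.card := (card_powerset _).symm
          _ ≤ _ := by
            apply card_le_card_of_injOn (fun X => P i ∪ X)
            · intro X hX
              have hX' : X ⊆ M i := by simpa using hX
              rw [mem_coe, mem_bipartiteAbove]
              refine ⟨mem_univ _, subset_union_left, ?_⟩
              rw [disjoint_union_left]
              exact ⟨hPQ i, (disjoint_of_subset_right hX' (hQM i)).symm⟩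
            · intro X hX Y hY hXY
              have hX' : X ⊆ M i := by simpa using hX
              have hY' : Y ⊆ M i := by simpa using hY
              have hXY' : P i ∪ X = P i ∪ Y := hXY
              ext c
              constructor
              · intro hc
                have : c ∈ P i ∪ Y := hXY' ▸ mem_union_right _ hc
                rcases mem_union.1 this with h | h
                · exact absurd (hX' hc) (disjoint_left.1 (hPM i) h)
                · exact h
              · intro hc
                have : c ∈ P i ∪ X := hXY'.symm ▸ mem_union_right _ hc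
                rcases mem_union.1 this with h | h
                · exact absurd (hY' hc) (disjoint_left.1 (hPM i) h)
                · exact h
      · intro A _
        apply exempt_card E hout
        intro i hi j hj hij
        by_contra hcon
        push Not at hcon
        obtain ⟨-, h, -⟩ := hfour i j hij hcon.1 hcon.2
        rw [mem_bipartiteBelow] at hi hj
        obtain ⟨c, hc⟩ := h
        rw [mem_inter] at hc
        exact disjoint_left.1 hj.2.2 (hi.2.1 hc.1) hc.2
    rw [card_univ, Fintype.card_finset, Fintype.card_fin] at h1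
    have h2 : 2 ^ m = 2 ^ (m - ρ) * 2 ^ ρ := by
      rw [← pow_add]; congr 1; omega
    rw [h2] at h1
    have h3 : HM.card * 2 ^ ρ ≤ ((2 * m + 1) * 2 ^ (m - ρ)) * 2 ^ ρ := by
      calc _ ≤ _ := h1
        _ = _ := by ring
    exact Nat.le_of_mul_le_mul_right h3 (by positivity)
  have hN : 2 * N.card ≤ m.choose (m / 2) := by
    have hnon : ∀ i ∈ N, ∀ j ∈ N, i ≠ j → (P i ∩ P j).Nonempty ∧ (P i ∩ Q j).Nonempty ∧
        (Q i ∩ P j).Nonempty ∧ (Q i ∩ Q j).Nonempty := by
      intro i hi j hj hij
      rw [mem_filter] at hi hj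
      have key : ∀ i j, ¬ ρ ≤ (M i).card → ¬ (P j).card < ρ → ¬ (Q j).card < ρ → ¬ E i j := by
        intro i j h1 h2 h3 hE
        rcases hsub i j hE with h | h
        · exact h1 ((not_lt.1 h2).trans (card_le_card h))
        · exact h1 ((not_lt.1 h3).trans (card_le_card h))
      exact hfour i j hij (key i j hi.2.2.2 hj.2.1 hj.2.2.1) (key j i hj.2.2.2 hi.2.1 hi.2.2.1)
    let g : ι × Bool → Finset (Fin m) := fun p => if p.2 then (Q p.1)ᶜ else Q p.1
    have hg : ∀ p ∈ N ×ˢ (univ : Finset Bool), ∀ q ∈ N ×ˢ (univ : Finset Bool), p ≠ q →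
        ¬ g p ⊆ g q := by
      rintro ⟨i, a⟩ hp ⟨j, b⟩ hq hpq hsubs
      rw [mem_product] at hp hq
      by_cases hij : i = j
      · subst hij
        have hi := hp.1
        rw [mem_filter] at hi
        have hPne : (P i).Nonempty := by
          rw [← card_pos]; simp only at hi; omega
        have hQne : (Q i).Nonempty := by
          rw [← card_pos]; simp only at hi; omega
        cases a <;> cases b
        · exact hpq rfl
        · obtain ⟨c, hc⟩ := hQne
          have := hsubs (by simpa [g] using hc)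
          simp [g] at this
          exact this hc
        · obtain ⟨c, hc⟩ := hPne
          have hcQ : c ∉ Q i := disjoint_left.1 (hPQ i) hc
          have := hsubs (show c ∈ g (i, true) by simpa [g] using hcQ)
          simp [g] at this
          exact hcQ this
        · exact hpq rfl
      · obtain ⟨⟨c1, h1⟩, ⟨c2, h2⟩, ⟨c3, h3⟩, ⟨c4, h4⟩⟩ := hnon i hp.1 j hq.1 hij
        rw [mem_inter] at h1 h2 h3 h4
        cases a <;> cases b
        · -- Q i ⊆ Q j
          have := hsubs (show c3 ∈ g (i, false) by simpa [g] using h3.1)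
          simp [g] at this
          exact disjoint_left.1 (hPQ j) h3.2 this
        · -- Q i ⊆ (Q j)ᶜ
          have := hsubs (show c4 ∈ g (i, false) by simpa [g] using h4.1)
          simp [g] at this
          exact this h4.2
        · -- (Q i)ᶜ ⊆ Q j
          have hc : c1 ∉ Q i := disjoint_left.1 (hPQ i) h1.1
          have := hsubs (show c1 ∈ g (i, true) by simpa [g] using hc)
          simp [g] at this
          exact disjoint_left.1 (hPQ j) h1.2 this
        · have hc : c2 ∉ Q i := disjoint_left.1 (hPQ i) h2.1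
          have := hsubs (show c2 ∈ g (i, true) by simpa [g] using hc)
          simp [g] at this
          exact this h2.2
    have hinj : Set.InjOn g (N ×ˢ (univ : Finset Bool) : Finset (ι × Bool)) := by
      intro p hp q hq hpq
      by_contra hne
      exact hg p hp q hq hne (by rw [hpq])
    have hanti : IsAntichain (· ⊆ ·) (((N ×ˢ (univ : Finset Bool)).image g :
        Finset (Finset (Fin m))) : Set (Finset (Fin m))) := by
      intro S hS T hT hST
      rw [mem_coe, mem_image] at hS hT
      obtain ⟨p, hp, rfl⟩ := hS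
      obtain ⟨q, hq, rfl⟩ := hT
      exact hg p hp q hq (fun h => hST (by rw [h]))
    have h1 := hanti.sperner
    rw [card_image_of_injOn hinj, card_product, Fintype.card_fin] at h1
    simp only [card_univ, Fintype.card_bool] at h1
    omega
  have hcover : (univ : Finset ι) ⊆ N ∪ (HP ∪ (HQ ∪ HM)) := by
    intro i _
    simp only [N, HP, HQ, HM, mem_union, mem_filter, mem_univ, true_and]
    tauto
  have h1 := card_le_card hcover
  have h2 : (N ∪ (HP ∪ (HQ ∪ HM))).card ≤ N.card + (HP.card + (HQ.card + HM.card)) := by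
    refine (card_union_le _ _).trans (Nat.add_le_add_left ?_ _)
    refine (card_union_le _ _).trans (Nat.add_le_add_left ?_ _)
    exact card_union_le _ _
  rw [card_univ] at h1
  have h3 : (2 * m + 1) * (2 * B + 2 ^ (m - ρ)) =
      (2 * m + 1) * B + ((2 * m + 1) * B + (2 * m + 1) * 2 ^ (m - ρ)) := by ring
  rw [h3]
  omega

end Counting

/-! ## Colourings of signed pairs -/

/-- A proper colouring of the signed pairs (for the Kneser type graph). -/
structure SC (ι : Type) (m : ℕ) where
  f : ι → Bool → ι → Bool → Fin m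
  symm : ∀ i a j b, f i a j b = f j b i a
  proper : ∀ i a j b k c, i ≠ j → i ≠ k → (j, b) ≠ (k, c) → f i a j b ≠ f i (!a) k c

namespace SC

variable {ι : Type} [Fintype ι] [DecidableEq ι] {m : ℕ} (C : SC ι m)

/-- The signed coordinate `(i, a)` appears in class `c`. -/
def app (i : ι) (a : Bool) (c : Fin m) : Prop := ∃ j b, j ≠ i ∧ C.f i a j b = c

/-- Both signs of `i` appear in class `c`. -/
def mixed (i : ι) (c : Fin m) : Prop := C.app i true c ∧ C.app i false c

/-- Only the sign `a` of `i` appears in class `c`. -/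
def pure (i : ι) (a : Bool) (c : Fin m) : Prop := C.app i a c ∧ ¬ C.app i (!a) c

/-- `j` is a partner of `i`. -/
def E (i j : ι) : Prop := j ≠ i ∧ ∃ b, C.f i true j b = C.f i false j b

lemma mixed_iff (i : ι) (a : Bool) (c : Fin m) :
    C.mixed i c ↔ C.app i a c ∧ C.app i (!a) c := by
  cases a
  · exact and_comm
  · exact Iff.rfl

lemma E_of_eq {i j : ι} (hij : j ≠ i) (a b : Bool) (h : C.f i a j b = C.f i (!a) j b) :
    C.E i j := by
  refine ⟨hij, b, ?_⟩
  cases a
  · exact h.symm
  · exact h

/-- Unique partner. -/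
lemma partner_unique {i j k : ι} {a b b' : Bool} (hj : j ≠ i) (hk : k ≠ i)
    (h : C.f i a j b = C.f i (!a) k b') : j = k ∧ b = b' := by
  by_contra hne
  exact C.proper i a j b k b' hj.symm hk.symm
    (fun h' => hne ⟨congrArg Prod.fst h', congrArg Prod.snd h'⟩) h

lemma E_of_app {i j : ι} {a b : Bool} (hj : j ≠ i) (h : C.app i (!a) (C.f i a j b)) :
    C.E i j := by
  obtain ⟨k, b', hk, h⟩ := h
  obtain ⟨rfl, rfl⟩ := C.partner_unique hj hk h.symm
  exact C.E_of_eq hj a b h.symm

/-- The special tuples of a recolouring. -/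
def spec (i : ι) (a : Bool) (j : ι) (b : Bool) (x : ι) (a1 : Bool) (y : ι) (b1 : Bool) : Prop :=
  (x = i ∧ a1 = a ∧ y = j ∧ b1 = b) ∨ (x = j ∧ a1 = b ∧ y = i ∧ b1 = a)

instance (i : ι) (a : Bool) (j : ι) (b : Bool) (x : ι) (a1 : Bool) (y : ι) (b1 : Bool) :
    Decidable (spec i a j b x a1 y b1) := by
  unfold spec; infer_instance

/-- Recolour the vertex `{(i,a),(j,b)}` with colour `c'`. -/
def recol (i : ι) (a : Bool) (j : ι) (b : Bool) (hij : i ≠ j) (c' : Fin m)
    (h1 : ¬ C.app i (!a) c') (h2 : ¬ C.app j (!b) c') : SC ι m where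
  f x a1 y b1 := if spec i a j b x a1 y b1 then c' else C.f x a1 y b1
  symm := by
    intro x a1 y b1
    have h : spec i a j b x a1 y b1 ↔ spec i a j b y b1 x a1 := by
      unfold spec; tauto
    by_cases hs : spec i a j b x a1 y b1
    · rw [if_pos hs, if_pos (h.1 hs)]
    · rw [if_neg hs, if_neg (fun hs' => hs (h.2 hs'))]
      exact C.symm _ _ _ _
  proper := by
    intro x a1 y b1 z b2 hxy hxz hne
    have hb : ∀ b : Bool, (!b) ≠ b := by decide
    have hb2 : ∀ b : Bool, b ≠ (!b) := by decide
    by_cases hs : spec i a j b x a1 y b1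
    · rw [if_pos hs]
      have hs' : ¬ spec i a j b x (!a1) z b2 := by
        rcases hs with ⟨rfl, rfl, rfl, rfl⟩ | ⟨rfl, rfl, rfl, rfl⟩
        · rintro (⟨-, h, -, -⟩ | ⟨h, -, -, -⟩)
          · exact hb _ h
          · exact hij h
        · rintro (⟨h, -, -, -⟩ | ⟨-, h, -, -⟩)
          · exact hij h.symm
          · exact hb _ h
      rw [if_neg hs']
      rcases hs with ⟨rfl, rfl, rfl, rfl⟩ | ⟨rfl, rfl, rfl, rfl⟩
      · intro h
        exact h1 ⟨z, b2, hxz.symm, h.symm⟩
      · intro h
        exact h2 ⟨z, b2, hxz.symm, h.symm⟩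
    · rw [if_neg hs]
      by_cases hs' : spec i a j b x (!a1) z b2
      · rw [if_pos hs']
        rcases hs' with ⟨hx, ha, hz, hb'⟩ | ⟨hx, ha, hz, hb'⟩
        · subst hx
          have : a1 = !a := by rw [← ha, Bool.not_not]
          subst this
          intro h
          exact h1 ⟨y, b1, hxy.symm, h⟩
        · subst hx
          have : a1 = !b := by rw [← ha, Bool.not_not]
          subst this
          intro h
          exact h2 ⟨y, b1, hxy.symm, h⟩
      · rw [if_neg hs']
        exact C.proper x a1 y b1 z b2 hxy hxz hne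

open Classical in
/-- The set of mixed pairs. -/
noncomputable def Mx : Finset (ι × Fin m) := univ.filter (fun p => C.mixed p.1 p.2)

lemma exists_min (C0 : SC ι m) : ∃ C : SC ι m, ∀ C' : SC ι m, C.Mx.card ≤ C'.Mx.card := by
  classical
  have hex : ∃ n, ∃ C : SC ι m, C.Mx.card = n := ⟨_, C0, rfl⟩
  obtain ⟨C, hC⟩ := Nat.find_spec hex
  refine ⟨C, fun C' => ?_⟩
  rw [hC]
  exact Nat.find_min' hex ⟨C', rfl⟩

/-- The key step: recolouring decreases the number of mixed pairs. -/
lemma recol_lt (i : ι) (a : Bool) (j : ι) (b : Bool) (hij : i ≠ j) (c' : Fin m)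
    (h1 : ¬ C.app i (!a) c') (h2 : ¬ C.app j (!b) c')
    (hE : C.f i a j b = C.f i (!a) j b) (hc : C.f i a j b ≠ c') :
    (C.recol i a j b hij c' h1 h2).Mx.card < C.Mx.card := by
  classical
  set D := C.recol i a j b hij c' h1 h2 with hD
  have hf : ∀ x a1 y b1, D.f x a1 y b1 = if spec i a j b x a1 y b1 then c' else C.f x a1 y b1 :=
    fun _ _ _ _ => rfl
  have happ : ∀ x a1 d, D.app x a1 d → C.app x a1 d ∨ (d = c' ∧ ((x = i ∧ a1 = a) ∨
      (x = j ∧ a1 = b))) := by
    rintro x a1 d ⟨y, b1, hy, h⟩
    rw [hf] at h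
    split_ifs at h with hs
    · right
      refine ⟨h.symm, ?_⟩
      rcases hs with ⟨hx, ha, -, -⟩ | ⟨hx, ha, -, -⟩
      · exact Or.inl ⟨hx, ha⟩
      · exact Or.inr ⟨hx, ha⟩
    · exact Or.inl ⟨y, b1, hy, h⟩
  have happ1 : ¬ D.app i (!a) c' := by
    rintro ⟨y, b1, hy, h⟩
    rw [hf] at h
    split_ifs at h with hs
    · rcases hs with ⟨-, ha, -, -⟩ | ⟨hx, -, -, -⟩
      · exact (by decide : ∀ b : Bool, (!b) ≠ b) _ ha
      · exact hij hx
    · exact h1 ⟨y, b1, hy, h⟩
  have happ2 : ¬ D.app j (!b) c' := by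
    rintro ⟨y, b1, hy, h⟩
    rw [hf] at h
    split_ifs at h with hs
    · rcases hs with ⟨hx, -, -, -⟩ | ⟨-, ha, -, -⟩
      · exact hij hx.symm
      · exact (by decide : ∀ b : Bool, (!b) ≠ b) _ ha
    · exact h2 ⟨y, b1, hy, h⟩
  apply card_lt_card
  rw [ssubset_iff_of_subset]
  · refine ⟨(i, C.f i a j b), ?_, ?_⟩
    · rw [Mx, mem_filter]
      refine ⟨mem_univ _, ?_⟩
      show C.mixed i (C.f i a j b)
      rw [C.mixed_iff i a]
      exact ⟨⟨j, b, hij.symm, rfl⟩, ⟨j, b, hij.symm, hE.symm⟩⟩
    · rw [Mx, mem_filter]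
      rintro ⟨-, h⟩
      have h : D.mixed i (C.f i a j b) := h
      rw [D.mixed_iff i a] at h
      obtain ⟨y, b1, hy, h⟩ := h.1
      rw [hf] at h
      split_ifs at h with hs
      · exact hc h.symm
      · have h3 : C.f i a y b1 = C.f i (!a) j b := h.trans hE
        obtain ⟨rfl, rfl⟩ := C.partner_unique hy hij.symm h3
        exact hs (Or.inl ⟨rfl, rfl, rfl, rfl⟩)
  · rintro ⟨x, d⟩ hx
    rw [Mx, mem_filter] at hx ⊢
    refine ⟨mem_univ _, ?_⟩
    have hx2 : D.mixed x d := hx.2
    show C.mixed x d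
    have key : ∀ a1, C.app x a1 d := by
      intro a1
      have h3 : D.app x a1 d ∧ D.app x (!a1) d := (D.mixed_iff x a1 d).1 hx2
      rcases happ x a1 d h3.1 with h | ⟨rfl, ⟨rfl, rfl⟩ | ⟨rfl, rfl⟩⟩
      · exact h
      · exact absurd h3.2 happ1
      · exact absurd h3.2 happ2
    exact ⟨key true, key false⟩

/-- In a minimal colouring, the pure colours of a partner are mixed. -/
lemma min_sub (hmin : ∀ C' : SC ι m, C.Mx.card ≤ C'.Mx.card) {i j : ι} (hij : j ≠ i) {b : Bool}
    (hE : C.f i true j b = C.f i false j b) (c' : Fin m) (hc' : C.pure j b c') :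
    C.mixed i c' := by
  by_contra hcon
  have hmix : C.mixed i (C.f i true j b) := ⟨⟨j, b, hij, rfl⟩, ⟨j, b, hij, hE.symm⟩⟩
  have hne : C.f i true j b ≠ c' := by
    rintro rfl
    exact hcon hmix
  have hex : ∃ a, ¬ C.app i (!a) c' := by
    by_contra h
    push Not at h
    exact hcon ⟨h false, h true⟩
  obtain ⟨a, ha⟩ := hex
  have h3 := C.recol_lt i a j b hij.symm c' ha hc'.2 (by cases a; exacts [hE.symm, hE])
    (by cases a; exacts [fun h => hne (hE.trans h), hne])
  exact absurd (hmin _) (not_le.2 h3)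

/-- The main estimate for the Kneser type graph. -/
lemma main_bound (C0 : SC ι m) (ρ : ℕ) (hρ : 1 ≤ ρ) (hρm : ρ ≤ m) :
    2 * Fintype.card ι ≤ m.choose (m / 2) +
      2 * ((2 * m + 1) * (2 * (univ.filter (fun S : Finset (Fin m) => S.card < ρ)).card
        + 2 ^ (m - ρ))) := by
  classical
  obtain ⟨C, hmin⟩ := exists_min C0
  refine counting (fun i => univ.filter (fun c => C.pure i true c))
    (fun i => univ.filter (fun c => C.pure i false c))
    (fun i => univ.filter (fun c => C.mixed i c)) C.E ?_ ?_ ?_ ?_ ?_ ?_ ρ hρ hρm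
  · intro i
    rw [disjoint_left]
    intro c h1 h2
    rw [mem_filter] at h1 h2
    exact h2.2.2 h1.2.1
  · intro i
    rw [disjoint_left]
    intro c h1 h2
    rw [mem_filter] at h1 h2
    exact h1.2.2 h2.2.2
  · intro i
    rw [disjoint_left]
    intro c h1 h2
    rw [mem_filter] at h1 h2
    exact h1.2.2 h2.2.1
  · intro i
    have hch : ∀ j : ι, ∃ b : Bool, C.E i j → C.f i true j b = C.f i false j b := by
      intro j
      by_cases h : C.E i j
      · obtain ⟨_, b, hb⟩ := h
        exact ⟨b, fun _ => hb⟩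
      · exact ⟨true, fun h' => absurd h' h⟩
    choose β hβ using hch
    have : (univ.filter (fun j => C.E i j)).card ≤ (univ : Finset (Fin m)).card := by
      apply card_le_card_of_injOn (fun j => C.f i true j (β j))
      · intro _ _; simp
      · intro j hj k hk hjk
        have hj' : C.E i j := by simpa using hj
        have hk' : C.E i k := by simpa using hk
        have h1 : C.f i true j (β j) = C.f i (!true) k (β k) := by
          have : C.f i true j (β j) = C.f i true k (β k) := hjk
          rw [this]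
          exact hβ k hk'
        exact (C.partner_unique hj'.1 hk'.1 h1).1
    simpa using this
  · intro i j hij h1 h2
    have key : ∀ a b, C.pure i a (C.f i a j b) ∧ C.pure j b (C.f i a j b) := by
      intro a b
      refine ⟨⟨⟨j, b, hij.symm, rfl⟩, ?_⟩, ⟨⟨i, a, hij, C.symm _ _ _ _⟩, ?_⟩⟩
      · intro h
        exact h1 (C.E_of_app hij.symm h)
      · intro h
        rw [C.symm i a j b] at h
        exact h2 (C.E_of_app hij h)
    refine ⟨⟨C.f i true j true, ?_⟩, ⟨C.f i true j false, ?_⟩, ⟨C.f i false j true, ?_⟩,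
      ⟨C.f i false j false, ?_⟩⟩ <;>
    · rw [mem_inter, mem_filter, mem_filter]
      exact ⟨⟨mem_univ _, (key _ _).1⟩, ⟨mem_univ _, (key _ _).2⟩⟩
  · rintro i j ⟨hij, b, hE⟩
    cases b
    · right
      intro c hc
      rw [mem_filter] at hc ⊢
      exact ⟨mem_univ _, C.min_sub hmin hij hE c hc.2⟩
    · left
      intro c hc
      rw [mem_filter] at hc ⊢
      exact ⟨mem_univ _, C.min_sub hmin hij hE c hc.2⟩

end SC

/-! ## The graphs for `k = 2` -/

/-- The sign of a Boolean. -/
def sg (a : Bool) : ℤ := if a then 1 else -1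

lemma sg_cases (a : Bool) : sg a = 1 ∨ sg a = -1 := by cases a <;> simp [sg]

lemma sg_ne (a : Bool) : sg a ≠ 0 := by cases a <;> simp [sg]

/-- The vector with sign `a` at `i` and sign `b` at `j`. -/
def vc {n : ℕ} (i : Fin n) (a : Bool) (j : Fin n) (b : Bool) : Fin n → ℤ :=
  fun x => if x = i then sg a else if x = j then sg b else 0

lemma vc_prop {n : ℕ} {i j : Fin n} (a b : Bool) (hij : i ≠ j) :
    (∀ x, vc i a j b x = -1 ∨ vc i a j b x = 0 ∨ vc i a j b x = 1) ∧
    (univ.filter (fun x => vc i a j b x ≠ 0)).card = 2 := by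
  constructor
  · intro x
    unfold vc
    split_ifs
    · rcases sg_cases a with h | h <;> simp [h]
    · rcases sg_cases b with h | h <;> simp [h]
    · simp
  · have : (univ.filter (fun x => vc i a j b x ≠ 0)) = {i, j} := by
      ext x
      rw [mem_filter, mem_insert, mem_singleton]
      unfold vc
      constructor
      · rintro ⟨-, h⟩
        by_contra hcon
        push Not at hcon
        rw [if_neg hcon.1, if_neg hcon.2] at h
        exact h rfl
      · rintro (rfl | rfl)
        · refine ⟨mem_univ _, ?_⟩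
          rw [if_pos rfl]; exact sg_ne a
        · refine ⟨mem_univ _, ?_⟩
          rw [if_neg hij.symm, if_pos rfl]; exact sg_ne b
    rw [this, card_pair hij]

/-- The vertex with sign `a` at `i` and sign `b` at `j`. -/
def mkv {n : ℕ} (i : Fin n) (a : Bool) (j : Fin n) (b : Bool) (hij : i ≠ j) : Vec n 2 :=
  ⟨vc i a j b, vc_prop a b hij⟩

lemma exists_mkv {n : ℕ} (v : Vec n 2) : ∃ (i j : Fin n) (a b : Bool) (hij : i ≠ j),
    v = mkv i a j b hij := by
  obtain ⟨i, j, hij, h⟩ := card_eq_two.1 v.2.2
  have hi : v.1 i ≠ 0 := by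
    have : i ∈ univ.filter (fun i => v.1 i ≠ 0) := by rw [h]; simp
    exact (mem_filter.1 this).2
  have hj : v.1 j ≠ 0 := by
    have : j ∈ univ.filter (fun i => v.1 i ≠ 0) := by rw [h]; simp
    exact (mem_filter.1 this).2
  have key : ∀ x, v.1 x ≠ 0 → ∃ a, v.1 x = sg a := by
    intro x hx
    rcases v.2.1 x with h | h | h
    · exact ⟨false, by simp [sg, h]⟩
    · exact absurd h hx
    · exact ⟨true, by simp [sg, h]⟩
  obtain ⟨a, ha⟩ := key i hi
  obtain ⟨b, hb⟩ := key j hj
  refine ⟨i, j, a, b, hij, ?_⟩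
  apply Subtype.ext
  funext x
  show v.1 x = vc i a j b x
  unfold vc
  split_ifs with h1 h2
  · rw [h1, ha]
  · rw [h2, hb]
  · by_contra hx
    have : x ∈ univ.filter (fun i => v.1 i ≠ 0) := by
      rw [mem_filter]; exact ⟨mem_univ _, hx⟩
    rw [h] at this
    simp [h1, h2] at this

lemma ip_mkv {n : ℕ} {i j : Fin n} {a b : Bool} (hij : i ≠ j) (w : Vec n 2) :
    ip (mkv i a j b hij) w = sg a * w.1 i + sg b * w.1 j := by
  unfold ip
  have h1 : ∀ x, (mkv i a j b hij).1 x * w.1 x =
      (if x = i then sg a * w.1 i else 0) + (if x = j then sg b * w.1 j else 0) := by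
    intro x
    show vc i a j b x * w.1 x = _
    unfold vc
    by_cases h : x = i
    · subst h
      rw [if_pos rfl, if_pos rfl, if_neg hij, add_zero]
    · rw [if_neg h, if_neg h]
      by_cases h2 : x = j
      · subst h2
        rw [if_pos rfl, if_pos rfl, zero_add]
      · rw [if_neg h2, if_neg h2, zero_mul, add_zero]
  rw [sum_congr rfl (fun x _ => h1 x), sum_add_distrib, sum_ite_eq', sum_ite_eq',
    if_pos (mem_univ _), if_pos (mem_univ _)]

lemma sg_mul_self (a : Bool) : sg a * sg a = 1 := by cases a <;> simp [sg]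

lemma sg_mul_not (a : Bool) : sg a * sg (!a) = -1 := by cases a <;> simp [sg]

lemma sg_mul_ne {a b : Bool} (h : a ≠ b) : sg a * sg b = -1 := by
  cases a <;> cases b <;> simp [sg] at h ⊢

lemma ip_self {n : ℕ} (v : Vec n 2) : ip v v = 2 := by
  obtain ⟨i, j, a, b, hij, rfl⟩ := exists_mkv v
  rw [ip_mkv]
  show sg a * vc i a j b i + sg b * vc i a j b j = 2
  unfold vc
  rw [if_pos rfl, if_neg hij.symm, if_pos rfl, sg_mul_self, sg_mul_self]
  norm_num

/-- A colouring of `K_±(n,2,-1)` gives a colouring of the signed pairs. -/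
def toSC {n m : ℕ} (hm : 0 < m) (c : (K n 2 (-1)).Coloring (Fin m)) : SC (Fin n) m where
  f i a j b := if h : i ≠ j then c (mkv i a j b h) else ⟨0, hm⟩
  symm := by
    intro i a j b
    by_cases h : i ≠ j
    · rw [dif_pos h, dif_pos h.symm]
      congr 1
      apply Subtype.ext
      funext x
      show vc i a j b x = vc j b i a x
      unfold vc
      by_cases h1 : x = i
      · subst h1
        rw [if_pos rfl, if_neg h, if_pos rfl]
      · rw [if_neg h1]
        by_cases h2 : x = j
        · rw [if_pos h2, if_pos h2]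
        · rw [if_neg h2, if_neg h2, if_neg h1]
    · rw [dif_neg h, dif_neg (fun h' => h h'.symm)]
  proper := by
    intro i a j b k d hij hik hne
    rw [dif_pos hij, dif_pos hik]
    have h1 : ip (mkv i a j b hij) (mkv i (!a) k d hik) ≤ -1 := by
      rw [ip_mkv]
      show sg a * vc i (!a) k d i + sg b * vc i (!a) k d j ≤ -1
      unfold vc
      rw [if_pos rfl, if_neg hij.symm, sg_mul_not]
      by_cases hjk : j = k
      · subst hjk
        rw [if_pos rfl, sg_mul_ne (fun h => hne (by rw [h]))]
        norm_num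
      · rw [if_neg hjk, mul_zero, add_zero]
    apply c.valid
    refine ⟨?_, h1⟩
    intro h
    rw [h, ip_self] at h1
    norm_num at h1

section Upper

variable {n s : ℕ} (S : Fin n → Finset (Fin (2 * s)))

/-- The colour `c` realizes the signs of `v`. -/
def good (v : Vec n 2) (c : Fin (2 * s)) : Prop := ∀ i, v.1 i ≠ 0 → (c ∈ S i ↔ v.1 i = 1)

lemma compl_of_not_good (hS : Function.Injective S) (hcard : ∀ i, (S i).card = s)
    {i j : Fin n} (a b : Bool) (hij : i ≠ j) (h : ¬ ∃ c, good S (mkv i a j b hij) c) :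
    S j = (S i)ᶜ := by
  by_contra hne
  apply h
  have hc : ∀ i, ((S i)ᶜ).card = s := by
    intro i
    rw [card_compl, hcard, Fintype.card_fin]; omega
  let X : Finset (Fin (2 * s)) := if a then S i else (S i)ᶜ
  let Y : Finset (Fin (2 * s)) := if b then S j else (S j)ᶜ
  have hX : X.card = s := by
    cases a
    · exact hc i
    · exact hcard i
  have hY : (Yᶜ).card = s := by
    cases b
    · show ((S j)ᶜᶜ).card = s
      rw [compl_compl]; exact hcard j
    · exact hc j
  have hXY : (X ∩ Y).Nonempty := by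
    by_contra hem
    rw [not_nonempty_iff_eq_empty, ← disjoint_iff_inter_eq_empty] at hem
    have h1 : X ⊆ Yᶜ := by
      intro c hcX
      rw [mem_compl]
      exact disjoint_left.1 hem hcX
    have h2 : X = Yᶜ := eq_of_subset_of_card_le h1 (by rw [hX, hY])
    cases a <;> cases b
    · have h3 : (S i)ᶜ = (S j)ᶜᶜ := h2
      rw [compl_compl] at h3
      exact hne h3.symm
    · have h3 : (S i)ᶜ = (S j)ᶜ := h2
      exact hij (hS (compl_injective h3))
    · have h3 : S i = (S j)ᶜᶜ := h2
      rw [compl_compl] at h3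
      exact hij (hS h3)
    · have h3 : S i = (S j)ᶜ := h2
      rw [h3, compl_compl] at hne
      exact hne rfl
  obtain ⟨c, hcXY⟩ := hXY
  rw [mem_inter] at hcXY
  refine ⟨c, ?_⟩
  have hi : c ∈ S i ↔ sg a = 1 := by
    cases a
    · have : c ∈ (S i)ᶜ := hcXY.1
      rw [mem_compl] at this
      simp [this, sg]
    · have : c ∈ S i := hcXY.1
      simp [this, sg]
  have hj : c ∈ S j ↔ sg b = 1 := by
    cases b
    · have : c ∈ (S j)ᶜ := hcXY.2
      rw [mem_compl] at this
      simp [this, sg]
    · have : c ∈ S j := hcXY.2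
      simp [this, sg]
  intro x hx
  change vc i a j b x ≠ 0 at hx
  show c ∈ S x ↔ vc i a j b x = 1
  unfold vc at hx ⊢
  by_cases h1 : x = i
  · subst h1
    rw [if_pos rfl]; exact hi
  · rw [if_neg h1] at hx ⊢
    by_cases h2 : x = j
    · subst h2
      rw [if_pos rfl]; exact hj
    · rw [if_neg h2] at hx
      exact absurd rfl hx

open Classical in
/-- The colouring of `J_±(n,2,-1)`. -/
noncomputable def col (v : Vec n 2) : Fin (2 * s + 1) :=
  if h : ∃ c, good S v c then (Classical.choose h).castSucc else Fin.last _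

lemma J_colorable (hS : Function.Injective S) (hcard : ∀ i, (S i).card = s) :
    (J n 2 (-1)).Colorable (2 * s + 1) := by
  refine ⟨SimpleGraph.Coloring.mk (col S) ?_⟩
  rintro u v ⟨-, huv⟩ heq
  by_cases hu : ∃ c, good S u c
  · by_cases hv : ∃ c, good S v c
    · unfold col at heq
      rw [dif_pos hu, dif_pos hv] at heq
      have h1 := Fin.castSucc_injective _ heq
      have hu' := Classical.choose_spec hu
      have hv' := Classical.choose_spec hv
      rw [← h1] at hv'
      have h2 : 0 ≤ ip u v := by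
        unfold ip
        apply sum_nonneg
        intro i _
        by_cases h3 : u.1 i = 0
        · rw [h3, zero_mul]
        · by_cases h4 : v.1 i = 0
          · rw [h4, mul_zero]
          · have h5 := (hu' i h3).symm.trans (hv' i h4)
            rcases u.2.1 i with h6 | h6 | h6
            · rcases v.2.1 i with h7 | h7 | h7
              · rw [h6, h7]; norm_num
              · exact absurd h7 h4
              · have := h5.2 h7
                rw [this, h7]; norm_num
            · exact absurd h6 h3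
            · rw [h6, h5.1 h6]; norm_num
      rw [huv] at h2
      norm_num at h2
    · unfold col at heq
      rw [dif_pos hu, dif_neg hv] at heq
      exact Fin.castSucc_ne_last _ heq
  · by_cases hv : ∃ c, good S v c
    · unfold col at heq
      rw [dif_neg hu, dif_pos hv] at heq
      exact Fin.castSucc_ne_last _ heq.symm
    · obtain ⟨i, j, a, b, hij, rfl⟩ := exists_mkv u
      obtain ⟨k, l, c, d, hkl, rfl⟩ := exists_mkv v
      have h1 := compl_of_not_good S hS hcard a b hij hu
      have h2 := compl_of_not_good S hS hcard c d hkl hv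
      rw [ip_mkv] at huv
      change sg a * vc k c l d i + sg b * vc k c l d j = -1 at huv
      unfold vc at huv
      by_cases hik : i = k
      · subst hik
        have hjl : j = l := hS (h1.trans h2.symm)
        subst hjl
        rw [if_pos rfl, if_neg hij.symm, if_pos rfl] at huv
        cases a <;> cases b <;> cases c <;> cases d <;> simp [sg] at huv
      · by_cases hil : i = l
        · subst hil
          have hjk : j = k := by
            apply hS
            rw [h1, h2, compl_compl]
          subst hjk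
          rw [if_neg hik, if_pos rfl, if_pos rfl] at huv
          cases a <;> cases b <;> cases c <;> cases d <;> simp [sg] at huv
        · have hjk : j ≠ k := by
            rintro rfl
            apply hil
            apply hS
            rw [h2, h1, compl_compl]
          have hjl : j ≠ l := by
            rintro rfl
            apply hik
            apply hS
            rw [← compl_injective.eq_iff, ← h1, h2]
          rw [if_neg hik, if_neg hil, if_neg hjk, if_neg hjl] at huv
          norm_num at huv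

end Upper

/-! ## Numerics -/

lemma small_sets (m ρ : ℕ) (hm : 2 ≤ m) :
    (univ.filter (fun S : Finset (Fin m) => S.card < ρ)).card ≤ m ^ ρ := by
  classical
  have h1 : (univ.filter (fun S : Finset (Fin m) => S.card < ρ)).card ≤
      ∑ k ∈ range ρ, m.choose k := by
    rw [card_eq_sum_card_fiberwise (f := fun S : Finset (Fin m) => S.card) (t := range ρ)]
    · apply sum_le_sum
      intro k _
      calc _ ≤ ((univ : Finset (Fin m)).powersetCard k).card := by
            apply card_le_card
            intro S hS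
            rw [mem_filter] at hS
            rw [mem_powersetCard]
            exact ⟨subset_univ _, hS.2⟩
        _ = m.choose k := by rw [card_powersetCard, card_univ, Fintype.card_fin]
    · intro S hS
      rw [mem_coe, mem_filter] at hS
      rw [mem_coe, mem_range]
      exact hS.2
  have h2 : ∑ k ∈ range ρ, m.choose k ≤ ∑ k ∈ range ρ, m ^ k :=
    sum_le_sum (fun k _ => Nat.choose_le_pow _ _)
  have h3 : ∑ k ∈ range ρ, m ^ k < m ^ ρ :=
    Nat.geomSum_lt hm (fun k hk => mem_range.1 hk)
  omega

lemma pow_bound (j : ℕ) (hj : 10 ≤ j) : 5 * j ^ 2 + 13 * j + 7 ≤ 2 ^ (j + 1) := by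
  induction j, hj using Nat.le_induction with
  | base => norm_num
  | succ j hj ih =>
    rw [pow_succ 2 (j + 1)]
    nlinarith

/-- Too few colours for `K`. -/
lemma K_not_colorable (j : ℕ) (hj : 10 ≤ j) :
    ¬ (K (Nat.centralBinom (2 ^ j)) 2 (-1)).Colorable (2 * 2 ^ j + 1) := by
  rintro ⟨c⟩
  set s := 2 ^ j with hs
  have hs4 : 1024 ≤ s := by
    calc 1024 = 2 ^ 10 := by norm_num
      _ ≤ 2 ^ j := Nat.pow_le_pow_right (by norm_num) hj
  have hX := pow_bound j hj
  have hXs : 2 ^ (j + 1) = 2 * s := by rw [hs, pow_succ]; ring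
  rw [hXs] at hX
  have hb := SC.main_bound (toSC (by omega) c) (5 * j) (by omega) (by nlinarith)
  set n := Nat.centralBinom s with hn
  set B := (univ.filter (fun S : Finset (Fin (2 * s + 1)) => S.card < 5 * j)).card with hB
  have hBle : B ≤ 2 ^ ((j + 2) * (5 * j)) := by
    calc B ≤ (2 * s + 1) ^ (5 * j) := small_sets _ _ (by omega)
      _ ≤ (2 ^ (j + 2)) ^ (5 * j) := by
          apply Nat.pow_le_pow_left
          rw [pow_add, ← hs]; omega
      _ = _ := by rw [← pow_mul]
  have h2 : (2 * s + 1) / 2 = s := by omega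
  rw [Fintype.card_fin, h2] at hb
  -- binomial identity
  have h3 : (s + 1) * (2 * s + 1).choose s = (2 * s + 1) * n := by
    have h4 := Nat.add_one_mul_choose_eq (2 * s) s
    have h5 : (2 * s + 1).choose s = (2 * s + 1).choose (s + 1) := by
      apply Nat.choose_symm_of_eq_add
      ring
    rw [h5, hn, Nat.centralBinom_eq_two_mul_choose]
    rw [h4]
    ring
  have h6 : 4 ^ s < s * n := Nat.four_pow_lt_mul_centralBinom s (by omega)
  set W := 2 * B + 2 ^ (2 * s + 1 - 5 * j) with hW
  have h7 : n ≤ 2 * (s + 1) * ((2 * (2 * s + 1) + 1) * W) := by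
    have h8 := Nat.mul_le_mul_left (s + 1) hb
    have h9 : (s + 1) * (2 * n) ≤ (2 * s + 1) * n +
        (s + 1) * (2 * ((2 * (2 * s + 1) + 1) * W)) := by
      calc _ ≤ _ := h8
        _ = (s + 1) * (2 * s + 1).choose s +
            (s + 1) * (2 * ((2 * (2 * s + 1) + 1) * W)) := by ring
        _ = _ := by rw [h3]
    nlinarith
  have h10 : s * n ≤ 2 ^ (3 * j + 5) * W := by
    calc s * n ≤ s * (2 * (s + 1) * ((2 * (2 * s + 1) + 1) * W)) := Nat.mul_le_mul_left _ h7
      _ = (s * (2 * (s + 1)) * (2 * (2 * s + 1) + 1)) * W := by ring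
      _ ≤ (s * (4 * s) * (8 * s)) * W := by
          apply Nat.mul_le_mul_right
          apply Nat.mul_le_mul
          · apply Nat.mul_le_mul_left; omega
          · omega
      _ = 2 ^ (3 * j + 5) * W := by
          rw [hs]
          congr 1
          rw [pow_add, mul_comm 3 j, pow_mul]
          ring
  have h11 : 2 ^ (3 * j + 5) * W ≤ 2 ^ (2 * s - 1) + 2 ^ (2 * s - 1) := by
    rw [hW, mul_add]
    apply add_le_add
    · calc 2 ^ (3 * j + 5) * (2 * B) ≤ 2 ^ (3 * j + 5) * (2 * 2 ^ ((j + 2) * (5 * j))) := by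
            apply Nat.mul_le_mul_left
            omega
        _ = 2 ^ (3 * j + 5 + 1 + (j + 2) * (5 * j)) := by
            rw [pow_add, pow_succ]; ring
        _ ≤ _ := by
            apply Nat.pow_le_pow_right (by norm_num)
            have : 3 * j + 5 + 1 + (j + 2) * (5 * j) = 5 * j ^ 2 + 13 * j + 6 := by ring
            omega
    · rw [← pow_add]
      apply Nat.pow_le_pow_right (by norm_num)
      have : 5 * j ≤ 2 * s + 1 := by nlinarith
      omega
  have h12 : 2 ^ (2 * s - 1) + 2 ^ (2 * s - 1) = 4 ^ s := by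
    rw [← two_mul, ← pow_succ', show 2 * s - 1 + 1 = 2 * s by omega, pow_mul]
    norm_num
  omega

lemma exists_sets (s : ℕ) : ∃ S : Fin (Nat.centralBinom s) → Finset (Fin (2 * s)),
    Function.Injective S ∧ ∀ i, (S i).card = s := by
  have h : Fintype.card {T : Finset (Fin (2 * s)) // T.card = s} = Nat.centralBinom s := by
    rw [Fintype.card_finset_len, Fintype.card_fin, Nat.centralBinom_eq_two_mul_choose]
  let e := (Fintype.equivFinOfCardEq h).symm
  exact ⟨fun i => (e i).1, fun i j hij => e.injective (Subtype.ext hij), fun i => (e i).2⟩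

/-- **Signed Johnson and Kneser graphs for `k = 2`, `t = -1`.** For `s = 2 ^ j` with `j ≥ 10`
and `n = C(2s, s)`, `χ(J_±(n,2,-1)) ≤ 2s + 1 < χ(K_±(n,2,-1))`; in particular the two chromatic
numbers differ for infinitely many `n`, and the answer to the question is negative. -/
theorem result :
    (∀ j : ℕ, 10 ≤ j →
      (J (Nat.centralBinom (2 ^ j)) 2 (-1)).chromaticNumber ≤ ((2 * 2 ^ j + 1 : ℕ) : ℕ∞) ∧
      ((2 * 2 ^ j + 1 : ℕ) : ℕ∞) < (K (Nat.centralBinom (2 ^ j)) 2 (-1)).chromaticNumber) ∧
    (∀ N : ℕ, ∃ n, N ≤ n ∧ 2 ≤ n ∧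
      (J n 2 (-1)).chromaticNumber < (K n 2 (-1)).chromaticNumber) ∧
    ¬ (∀ (k : ℕ) (t : ℤ), 1 ≤ k → -(k : ℤ) ≤ t → t < 0 →
      ∃ n0 : ℕ, ∀ n, n0 ≤ n → k ≤ n → (J n k t).chromaticNumber = (K n k t).chromaticNumber) := by
  have h1 : ∀ j : ℕ, 10 ≤ j →
      (J (Nat.centralBinom (2 ^ j)) 2 (-1)).chromaticNumber ≤ ((2 * 2 ^ j + 1 : ℕ) : ℕ∞) ∧
      ((2 * 2 ^ j + 1 : ℕ) : ℕ∞) < (K (Nat.centralBinom (2 ^ j)) 2 (-1)).chromaticNumber := by
    intro j hj
    constructor
    · obtain ⟨S, hS, hcard⟩ := exists_sets (2 ^ j)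
      exact (J_colorable S hS hcard).chromaticNumber_le
    · by_contra hcon
      push Not at hcon
      exact K_not_colorable j hj (SimpleGraph.chromaticNumber_le_iff_colorable.1 hcon)
  have h2 : ∀ N : ℕ, ∃ n, N ≤ n ∧ 2 ≤ n ∧
      (J n 2 (-1)).chromaticNumber < (K n 2 (-1)).chromaticNumber := by
    intro N
    have h3 := h1 (N + 10) (by omega)
    refine ⟨Nat.centralBinom (2 ^ (N + 10)), ?_, ?_, lt_of_le_of_lt h3.1 h3.2⟩
    · have h4 : 4 ^ (2 ^ (N + 10)) < 2 ^ (N + 10) * Nat.centralBinom (2 ^ (N + 10)) := by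
        apply Nat.four_pow_lt_mul_centralBinom
        calc 4 = 2 ^ 2 := by norm_num
          _ ≤ _ := Nat.pow_le_pow_right (by norm_num) (by omega)
      have h5 : N + 10 < 2 ^ (N + 10) := Nat.lt_two_pow_self
      set s := 2 ^ (N + 10) with hs
      have h6 : s < 2 ^ s := Nat.lt_two_pow_self
      have h7 : s * s < s * Nat.centralBinom s := by
        calc s * s ≤ 2 ^ s * 2 ^ s := Nat.mul_le_mul h6.le h6.le
          _ = 4 ^ s := by rw [← mul_pow]; norm_num
          _ < _ := h4
      have h8 := lt_of_mul_lt_mul_left h7 (Nat.zero_le s)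
      omega
    · exact Nat.two_le_centralBinom _ (by positivity)
  refine ⟨h1, h2, ?_⟩
  intro h
  obtain ⟨n0, hn0⟩ := h 2 (-1) (by norm_num) (by norm_num) (by norm_num)
  obtain ⟨n, hn, hn2, hlt⟩ := h2 n0
  exact absurd (hn0 n hn hn2) hlt.ne

end Pool.Agent.Results.MP_6c9e22_co.MinusOne
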